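import Pool.Agent.Work.MP_2738db_nt_ZZ.Interface
import Pool.Agent.Work.MP_b29d7f_nt.Primes
import Pool.Agent.Work.MP_b0c12c_nt_helper41.Mert

/-!
Block P2 of the THIRD BASE theorem: the integers without prime factor `3` modulo `4` have
density zero, in a quantitative form.
-/

set_option autoImplicit false

namespace Pool.Agent.Work.MP_2738db_nt_ZZ.helper46

open Finset ArithmeticFunction Pool.Agent.Work.MP_2738db_nt_ZZ

/-- no prime factor `3` modulo `4` -/
def G (n : ℕ) : Prop := ∀ p : ℕ, p.Prime → p ∣ n → p % 4 ≠ 3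

theorem G_of_dvd {m n : ℕ} (h : m ∣ n) (hn : G n) : G m :=
  fun p hp hpm => hn p hp (hpm.trans h)

/-- bases of sums of two coprime squares -/
theorem G_of_Pl {c k : ℕ} (hk : 1 ≤ k) (h : Pl 2 c k) : G c := by
  obtain ⟨x, y, -, -, hxy, he⟩ := h
  intro p hp hpc
  have h1 := ZMod.isSquare_neg_one_of_eq_sq_add_sq_of_coprime rfl hxy
  rw [he] at h1
  have h2 := ZMod.isSquare_neg_one_of_dvd (dvd_pow hpc (by omega : k ≠ 0)) h1
  have : Fact p.Prime := ⟨hp⟩
  exact ZMod.exists_sq_eq_neg_one_iff.mp h2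

open Classical in
/-- the set of the `n ≤ N` with `G n` -/
noncomputable def A (N : ℕ) : Finset ℕ := (Ioc 0 N).filter G

theorem mem_A {N n : ℕ} : n ∈ A N ↔ (0 < n ∧ n ≤ N) ∧ G n := by
  classical
  simp [A]

theorem sum_vm_le (K : ℕ) : ∑ d ∈ Ioc 0 K, Λ d ≤ 6 * K := by
  have h1 : Chebyshev.psi (K : ℝ) = ∑ d ∈ Ioc 0 K, Λ d := by
    rw [Chebyshev.psi, Nat.floor_natCast]
  rw [← h1]
  refine (Chebyshev.psi_le_const_mul_self (Nat.cast_nonneg K)).trans ?_
  have h2 : Real.log 4 ≤ 2 := by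
    have := Real.log_two_lt_d9
    rw [(by norm_num : (4 : ℝ) = 2 ^ 2), Real.log_pow]
    push_cast
    linarith
  have : (0 : ℝ) ≤ K := Nat.cast_nonneg K
  nlinarith

/-- Chebyshev's trick -/
theorem sum_log_le (N : ℕ) : ∑ n ∈ A N, Real.log n ≤ 6 * N * ∑ m ∈ A N, 1 / (m : ℝ) := by
  classical
  have h1 : ∑ n ∈ A N, Real.log n = ∑ x ∈ (A N).sigma (fun n => n.divisors), Λ x.2 := by
    rw [Finset.sum_sigma]
    exact Finset.sum_congr rfl fun n _ => (vonMangoldt_sum).symm
  have h2 : ∑ x ∈ (A N).sigma (fun n => n.divisors), Λ x.2 ≤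
      ∑ x ∈ (A N).sigma (fun m => Ioc 0 (N / m)), Λ x.2 := by
    have hinj : Set.InjOn (fun x : (_ : ℕ) × ℕ => (⟨x.1 / x.2, x.2⟩ : (_ : ℕ) × ℕ))
        ((A N).sigma (fun n => n.divisors) : Finset _) := by
      rintro ⟨a, b⟩ hx ⟨c, d⟩ hy hxy
      rw [mem_coe, mem_sigma, Nat.mem_divisors] at hx hy
      simp only [Sigma.mk.injEq, heq_eq_eq] at hxy
      obtain ⟨h1, h2⟩ := hxy
      subst h2
      simp only at hx hy
      have h3 : a = c := by
        rw [← Nat.div_mul_cancel hx.2.1, ← Nat.div_mul_cancel hy.2.1, h1]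
      rw [h3]
    calc ∑ x ∈ (A N).sigma (fun n => n.divisors), Λ x.2
        = ∑ y ∈ ((A N).sigma (fun n => n.divisors)).image
            (fun x : (_ : ℕ) × ℕ => (⟨x.1 / x.2, x.2⟩ : (_ : ℕ) × ℕ)), Λ y.2 := by
          rw [Finset.sum_image hinj]
      _ ≤ _ := by
          apply Finset.sum_le_sum_of_subset_of_nonneg
          · intro y hy
            rw [mem_image] at hy
            obtain ⟨⟨a, b⟩, hx, rfl⟩ := hy
            rw [mem_sigma, Nat.mem_divisors] at hx
            simp only at hx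
            obtain ⟨h3, h4, h5⟩ := hx
            rw [mem_A] at h3
            have hb : 0 < b := Nat.pos_of_dvd_of_pos h4 h3.1.1
            have hq : 0 < a / b := Nat.div_pos (Nat.le_of_dvd h3.1.1 h4) hb
            rw [mem_sigma, mem_A, mem_Ioc]
            refine ⟨⟨⟨hq, (Nat.div_le_self a b).trans h3.1.2⟩,
              G_of_dvd (Nat.div_dvd_of_dvd h4) h3.2⟩, hb, ?_⟩
            simp only
            rw [Nat.le_div_iff_mul_le hq, Nat.mul_div_cancel' h4]
            exact h3.1.2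
          · intro x _ _
            exact vonMangoldt_nonneg
  rw [h1]
  refine h2.trans ?_
  rw [Finset.sum_sigma, Finset.mul_sum]
  apply Finset.sum_le_sum
  intro m hm
  rw [mem_A] at hm
  refine (sum_vm_le (N / m)).trans ?_
  have hm0 : (0 : ℝ) < m := by exact_mod_cast hm.1.1
  have h3 : ((N / m : ℕ) : ℝ) ≤ (N : ℝ) / m := Nat.cast_div_le
  calc 6 * ((N / m : ℕ) : ℝ) ≤ 6 * ((N : ℝ) / m) := by gcongr
    _ = _ := by ring

theorem card_log_le (N : ℕ) (hN : 1 ≤ N) :
    ((A N).card : ℝ) * Real.log N ≤ 7 * N * ∑ m ∈ A N, 1 / (m : ℝ) := by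
  have hN0 : (0 : ℝ) < N := by exact_mod_cast hN
  have h1 := sum_log_le N
  have h2 : ∑ n ∈ A N, (Real.log N - Real.log n) ≤ N * ∑ m ∈ A N, 1 / (m : ℝ) := by
    rw [Finset.mul_sum]
    apply Finset.sum_le_sum
    intro m hm
    rw [mem_A] at hm
    have hm0 : (0 : ℝ) < m := by exact_mod_cast hm.1.1
    rw [← Real.log_div hN0.ne' hm0.ne']
    refine (Real.log_le_sub_one_of_pos (by positivity)).trans ?_
    rw [mul_one_div]
    linarith
  rw [Finset.sum_sub_distrib, Finset.sum_const, nsmul_eq_mul] at h2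
  linarith

/-- the primes up to `N` that are not `3` modulo `4` -/
def PP (N : ℕ) : Finset ℕ := (Ioc 1 N).filter (fun p => p.Prime ∧ p % 4 ≠ 3)

/-- the primes up to `N` that are `3` modulo `4` -/
def TT (N : ℕ) : Finset ℕ := (Ioc 1 N).filter (fun p => p.Prime ∧ p % 4 = 3)

/-- the Euler product -/
theorem sum_le_prod (N : ℕ) :
    ∑ m ∈ A N, 1 / (m : ℝ) ≤ ∏ p ∈ PP N, (1 - 1 / (p : ℝ))⁻¹ := by
  classical
  let f : ℕ →* ℝ :=
    { toFun := fun n => 1 / (n : ℝ)
      map_one' := by simp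
      map_mul' := fun a b => by push_cast; rw [one_div, one_div, one_div, mul_inv] }
  have hf : ∀ n : ℕ, f n = 1 / (n : ℝ) := fun _ => rfl
  have h1 := (EulerProduct.summable_and_hasSum_factoredNumbers_prod_filter_prime_geometric
    (f := f) (fun {p} hp => by
      rw [hf, Real.norm_of_nonneg (by positivity), div_lt_one (by exact_mod_cast hp.pos)]
      exact_mod_cast hp.one_lt) (PP N)).2
  have h2 : (PP N).filter (fun p => p.Prime) = PP N := by
    apply Finset.filter_true_of_mem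
    intro p hp
    rw [PP, mem_filter] at hp
    exact hp.2.1
  rw [h2] at h1
  have h3 : HasSum (Set.indicator (Nat.factoredNumbers (PP N)) (fun m : ℕ => f m))
      (∏ p ∈ PP N, (1 - f p)⁻¹) := (hasSum_subtype_iff_indicator).mp h1
  have h4 := sum_le_hasSum (A N) (fun i _ => by
    apply Set.indicator_nonneg
    intro n _
    rw [hf]
    positivity) h3
  have h5 : ∑ m ∈ A N, Set.indicator (Nat.factoredNumbers (PP N)) (fun m : ℕ => f m) m =
      ∑ m ∈ A N, 1 / (m : ℝ) := by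
    apply Finset.sum_congr rfl
    intro m hm
    rw [mem_A] at hm
    rw [Set.indicator_of_mem, hf]
    rw [Nat.mem_factoredNumbers']
    intro p hp hpm
    rw [PP, mem_filter, mem_Ioc]
    exact ⟨⟨hp.one_lt, (Nat.le_of_dvd hm.1.1 hpm).trans hm.1.2⟩, hp, hm.2 p hp hpm⟩
  rw [h5] at h4
  exact h4

theorem prod_le_exp (N : ℕ) :
    ∏ p ∈ PP N, (1 - 1 / (p : ℝ))⁻¹ ≤ Real.exp (∑ p ∈ PP N, 1 / (p : ℝ) + 2) := by
  have h1 : ∏ p ∈ PP N, (1 - 1 / (p : ℝ))⁻¹ ≤
      ∏ p ∈ PP N, Real.exp (1 / (p : ℝ) + 2 * ((p : ℝ) ^ 2)⁻¹) := by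
    apply Finset.prod_le_prod
    · intro p hp
      rw [PP, mem_filter] at hp
      have : (1 : ℝ) < p := by exact_mod_cast hp.2.1.one_lt
      have h2 : 1 / (p : ℝ) < 1 := by rw [div_lt_one (by linarith)]; exact this
      exact (inv_pos.mpr (by linarith)).le
    · intro p hp
      rw [PP, mem_filter] at hp
      have h2p : (2 : ℝ) ≤ p := by exact_mod_cast hp.2.1.two_le
      have h3 : (1 - 1 / (p : ℝ))⁻¹ = 1 / ((p : ℝ) - 1) + 1 := by
        have h5 : (p : ℝ) - 1 ≠ 0 := by linarith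
        have h6 : (p : ℝ) ≠ 0 := by linarith
        have h7 : 1 - 1 / (p : ℝ) = ((p : ℝ) - 1) / p := by
          rw [sub_div, div_self h6]
        rw [h7, inv_div, div_add_one h5]
        congr 1
        ring
      rw [h3]
      refine (Real.add_one_le_exp _).trans (Real.exp_le_exp.mpr ?_)
      have h4 : 1 / (p : ℝ) + 2 * ((p : ℝ) ^ 2)⁻¹ - 1 / ((p : ℝ) - 1) =
          ((p : ℝ) - 2) / ((p : ℝ) ^ 2 * ((p : ℝ) - 1)) := by
        have h5 : (p : ℝ) - 1 ≠ 0 := by linarith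
        have h6 : (p : ℝ) ≠ 0 := by linarith
        field_simp
        ring
      have h5 : 0 ≤ ((p : ℝ) - 2) / ((p : ℝ) ^ 2 * ((p : ℝ) - 1)) := by
        apply div_nonneg (by linarith)
        apply mul_nonneg (by positivity) (by linarith)
      linarith
  refine h1.trans ?_
  rw [← Real.exp_sum, Finset.sum_add_distrib]
  apply Real.exp_le_exp.mpr
  have h2 : ∑ p ∈ PP N, 2 * ((p : ℝ) ^ 2)⁻¹ ≤ 2 := by
    rw [← Finset.mul_sum]
    have h3 : ∑ p ∈ PP N, ((p : ℝ) ^ 2)⁻¹ ≤ ∑ p ∈ Ioc 1 N, ((p : ℝ) ^ 2)⁻¹ := by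
      apply Finset.sum_le_sum_of_subset_of_nonneg (Finset.filter_subset _ _)
      intro i _ _
      positivity
    have h4 : ∑ p ∈ Ioc 1 N, ((p : ℝ) ^ 2)⁻¹ ≤ 1 := by
      rcases Nat.lt_or_ge N 1 with h | h
      · rw [Finset.Ioc_eq_empty (by omega), Finset.sum_empty]
        norm_num
      · refine (sum_Ioc_inv_sq_le_sub one_ne_zero h).trans ?_
        have : (0 : ℝ) ≤ ((N : ℕ) : ℝ)⁻¹ := by positivity
        push_cast
        linarith
    linarith
  linarith

theorem TT_succ (n : ℕ) (hn : 1 ≤ n) (f : ℕ → ℝ) : ∑ p ∈ TT (n + 1), f p = ∑ p ∈ TT n, f p +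
    if (n + 1).Prime ∧ (n + 1) % 4 = 3 then f (n + 1) else 0 := by
  unfold TT
  rw [← Finset.insert_Ioc_right_eq_Ioc_add_one (by omega : 1 ≤ n), filter_insert]
  split_ifs with h
  · rw [sum_insert (by simp), add_comm]
  · simp

/-- lower bound for the reciprocals of the primes `3` modulo `4` -/
theorem TT_lower : ∃ δ K : ℝ, 0 < δ ∧ ∀ N : ℕ, 2 ≤ N →
    δ * Real.log (Real.log N) - K ≤ ∑ p ∈ TT N, 1 / (p : ℝ) := by
  have hu : IsUnit (3 : ZMod 4) := by decide
  obtain ⟨c, C₀, hc, hC₀⟩ := Pool.Agent.Work.MP_b29d7f_nt.mertens_lower hu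
  set C := max C₀ 0 with hC
  have hC0 : 0 ≤ C := le_max_right _ _
  have hF : ∀ n : ℕ, 1 ≤ n → c * Real.log n - C ≤ ∑ p ∈ TT n, Real.log p / (p : ℝ) := by
    intro n hn
    have h1 := hC₀ n hn
    have h2 : Pool.Agent.Work.MP_b29d7f_nt.primesIn (3 : ZMod 4) n = TT n := by
      ext p
      rw [Pool.Agent.Work.MP_b29d7f_nt.mem_primesIn, TT, mem_filter, mem_Ioc]
      have h3 : ((p : ZMod 4) = 3) ↔ p % 4 = 3 := by
        have h4 := ZMod.natCast_eq_natCast_iff' p 3 4
        push_cast at h4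
        exact h4
      rw [h3]
      constructor
      · rintro ⟨⟨h5, h6⟩, h7⟩
        exact ⟨⟨h6.one_lt, h5⟩, h6, h7⟩
      · rintro ⟨⟨-, h5⟩, h6, h7⟩
        exact ⟨⟨h5, h6⟩, h7⟩
    rw [h2] at h1
    have h3 : C₀ ≤ C := le_max_left _ _
    linarith
  set F : ℕ → ℝ := fun n => ∑ p ∈ TT n, Real.log p / (p : ℝ) with hFdef
  set S : ℕ → ℝ := fun n => ∑ p ∈ TT n, 1 / (p : ℝ) with hS
  set W : ℕ → ℝ := fun n => S n - F n / Real.log n - c / 2 * Real.log (Real.log n) -
    C / Real.log n with hW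
  have step : ∀ n : ℕ, 2 ≤ n → W n ≤ W (n + 1) := by
    intro n hn
    have hn0 : (0 : ℝ) < n := by exact_mod_cast (by omega : 0 < n)
    have hl : 0 < Real.log n := Real.log_pos (by exact_mod_cast (by omega : 1 < n))
    have hll : Real.log n < Real.log ((n + 1 : ℕ) : ℝ) :=
      Real.log_lt_log hn0 (by exact_mod_cast Nat.lt_succ_self n)
    have hl2 : Real.log ((n + 1 : ℕ) : ℝ) ≤ 2 * Real.log n := by
      have h1 : (((n + 1 : ℕ) : ℝ)) ≤ (n : ℝ) ^ 2 := by
        have : n + 1 ≤ n ^ 2 := by nlinarith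
        exact_mod_cast this
      have h2 := Real.log_le_log (by positivity) h1
      rw [Real.log_pow] at h2
      push_cast at h2 ⊢
      exact h2
    set l := Real.log n with hl'
    set l' := Real.log ((n + 1 : ℕ) : ℝ) with hl''
    have hl'0 : 0 < l' := by linarith
    have hFn := hF n (by omega)
    have e1 : S (n + 1) - F (n + 1) / l' = S n - F n / l' := by
      simp only [hS, hFdef]
      rw [TT_succ n (by omega), TT_succ n (by omega)]
      split_ifs with h
      · rw [← hl'']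
        field_simp
        ring
      · ring
    have e2 : c / 2 * (Real.log l' - Real.log l) ≤ c * ((l' - l) / l') := by
      have h1 : Real.log l' - Real.log l ≤ (l' - l) / l := by
        rw [← Real.log_div hl'0.ne' hl.ne']
        refine (Real.log_le_sub_one_of_pos (by positivity)).trans (le_of_eq ?_)
        field_simp
      have h2 : (l' - l) / l ≤ 2 * ((l' - l) / l') := by
        rw [← mul_div_assoc, div_le_div_iff₀ hl hl'0]
        have : 0 ≤ l' - l := by linarith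
        nlinarith
      have h3 : c / 2 * (Real.log l' - Real.log l) ≤ c / 2 * (2 * ((l' - l) / l')) := by
        apply mul_le_mul_of_nonneg_left (h1.trans h2) (by positivity)
      linarith
    have e3 : (F n + C) * (1 / l - 1 / l') ≥ c * ((l' - l) / l') := by
      have h1 : 0 ≤ 1 / l - 1 / l' := by
        rw [sub_nonneg]
        exact one_div_le_one_div_of_le hl hll.le
      have h2 : c * ((l' - l) / l') = (c * l) * (1 / l - 1 / l') := by
        field_simp
      rw [h2]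
      apply mul_le_mul_of_nonneg_right _ h1
      linarith
    have e4 : W n = S n - F n / l - c / 2 * Real.log l - C / l := rfl
    have e5 : W (n + 1) = S (n + 1) - F (n + 1) / l' - c / 2 * Real.log l' - C / l' := rfl
    rw [e4, e5, e1]
    have e6 : (F n + C) * (1 / l - 1 / l') = F n / l + C / l - F n / l' - C / l' := by ring
    linarith
  have mono : ∀ n : ℕ, 2 ≤ n → W 2 ≤ W n := by
    intro n hn
    induction n, hn using Nat.le_induction with
    | base => exact le_rfl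
    | succ n hn ih => exact ih.trans (step n hn)
  refine ⟨c / 2, - W 2, by positivity, fun N hN => ?_⟩
  have h1 := mono N hN
  have hl : 0 < Real.log N := Real.log_pos (by exact_mod_cast (by omega : 1 < N))
  have hF0 : 0 ≤ F N / Real.log N := by
    apply div_nonneg _ hl.le
    apply Finset.sum_nonneg
    intro p hp
    rw [TT, mem_filter] at hp
    exact div_nonneg (Real.log_nonneg (by exact_mod_cast hp.2.1.one_lt.le)) (Nat.cast_nonneg _)
  have hC1 : 0 ≤ C / Real.log N := div_nonneg hC0 hl.le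
  have e4 : W N = S N - F N / Real.log N - c / 2 * Real.log (Real.log N) - C / Real.log N := rfl
  rw [e4] at h1
  have e7 : ∑ p ∈ TT N, 1 / (p : ℝ) = S N := rfl
  rw [e7]
  linarith

/-- upper bound for the reciprocals of the primes not `3` modulo `4` -/
theorem PP_upper : ∃ δ K : ℝ, 0 < δ ∧ ∀ N : ℕ, 2 ≤ N →
    ∑ p ∈ PP N, 1 / (p : ℝ) ≤ (1 - δ) * Real.log (Real.log N) + K := by
  classical
  obtain ⟨δ, K, hδ, hK⟩ := TT_lower
  obtain ⟨C, hC, hM⟩ := Pool.Agent.Work.MP_b0c12c_nt_helper41.mertens2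
  refine ⟨δ, 1 / 2 + C / Real.log 2 - Real.log (Real.log 2) + K, hδ, fun N hN => ?_⟩
  have h1 := hK N hN
  have h2 := (abs_le.mp (hM 2 N le_rfl hN)).2
  have h3 : ∑ p ∈ PP N, 1 / (p : ℝ) + ∑ p ∈ TT N, 1 / (p : ℝ) =
      ∑ p ∈ (Ioc 1 N).filter Nat.Prime, 1 / (p : ℝ) := by
    rw [← Finset.sum_filter_add_sum_filter_not ((Ioc 1 N).filter Nat.Prime) (fun p => p % 4 ≠ 3)]
    congr 1
    · rw [Finset.filter_filter]
      rfl
    · rw [Finset.filter_filter]
      apply Finset.sum_congr _ fun _ _ => rfl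
      ext p
      simp [TT]
  have h4 : ∑ p ∈ (Ioc 1 N).filter Nat.Prime, 1 / (p : ℝ) =
      1 / 2 + ∑ p ∈ (Ioc 2 N).filter Nat.Prime, 1 / (p : ℝ) := by
    have h5 : (Ioc 1 N).filter Nat.Prime = insert 2 ((Ioc 2 N).filter Nat.Prime) := by
      ext p
      simp only [mem_filter, mem_Ioc, mem_insert]
      constructor
      · rintro ⟨⟨h6, h7⟩, h8⟩
        by_cases h9 : p = 2
        · exact Or.inl h9
        · exact Or.inr ⟨⟨by omega, h7⟩, h8⟩
      · rintro (rfl | ⟨⟨h6, h7⟩, h8⟩)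
        · exact ⟨⟨by omega, hN⟩, Nat.prime_two⟩
        · exact ⟨⟨by omega, h7⟩, h8⟩
    rw [h5, Finset.sum_insert (by simp)]
    norm_num
  have h5 : ((2 : ℕ) : ℝ) = 2 := by norm_num
  rw [h5] at h2
  linarith

/-- **P2** -/
theorem stmt_P2 : Stmt_P2 := by
  classical
  obtain ⟨δ, K, hδ, hK⟩ := PP_upper
  refine ⟨7 * Real.exp (K + 2), δ, hδ, fun N hN => ?_⟩
  have hN0 : (0 : ℝ) < N := by exact_mod_cast (by omega : 0 < N)
  have hl : 0 < Real.log N := Real.log_pos (by exact_mod_cast (by omega : 1 < N))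
  have hsub : {c : ℕ | 1 ≤ c ∧ c ≤ N ∧ ∃ k : ℕ, 1 ≤ k ∧ Pl 2 c k} ⊆ (A N : Set ℕ) := by
    rintro c ⟨h1, h2, k, hk, h⟩
    rw [mem_coe, mem_A]
    exact ⟨⟨h1, h2⟩, G_of_Pl hk h⟩
  have hcard : (({c : ℕ | 1 ≤ c ∧ c ≤ N ∧ ∃ k : ℕ, 1 ≤ k ∧ Pl 2 c k}.ncard : ℕ) : ℝ) ≤
      ((A N).card : ℝ) := by
    rw [← Set.ncard_coe_finset (A N)]
    exact_mod_cast Set.ncard_le_ncard hsub (Finset.finite_toSet _)
  refine hcard.trans ?_
  have h1 := card_log_le N (by omega)
  have h2 := (sum_le_prod N).trans (prod_le_exp N)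
  have h3 : Real.exp (∑ p ∈ PP N, 1 / (p : ℝ) + 2) ≤
      Real.exp (K + 2) * (Real.log N * (Real.log N ^ δ)⁻¹) := by
    have h4 : Real.log N * (Real.log N ^ δ)⁻¹ = Real.exp ((1 - δ) * Real.log (Real.log N)) := by
      rw [mul_comm (1 - δ), ← Real.rpow_def_of_pos hl, Real.rpow_sub hl, Real.rpow_one]
      rfl
    rw [h4, ← Real.exp_add]
    apply Real.exp_le_exp.mpr
    have := hK N hN
    linarith
  have h4 : ((A N).card : ℝ) * Real.log N ≤
      (7 * Real.exp (K + 2) * N / Real.log N ^ δ) * Real.log N := by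
    calc ((A N).card : ℝ) * Real.log N ≤ 7 * N * ∑ m ∈ A N, 1 / (m : ℝ) := h1
      _ ≤ 7 * N * (Real.exp (K + 2) * (Real.log N * (Real.log N ^ δ)⁻¹)) := by
          gcongr
          exact h2.trans h3
      _ = _ := by
          rw [div_eq_mul_inv]
          ring
  exact le_of_mul_le_mul_right h4 hl

end Pool.Agent.Work.MP_2738db_nt_ZZ.helper46
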